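import Pool.Agent.H644.LD.Sim
import Pool.Graph.R_seed8.TH588.WD.Size

/-!
# The size of the deterministic simulation (adapted from the module `WD.Size` of the library)
-/

set_option autoImplicit false

namespace Pool.Agent.H644.LD

open Relation
open Pool.Agent.TH588.WD hiding rea decides_rea enP decides_enP ctP decides_ctP qry acP mainP finP plan
  decides_qry decides_acP run_main decides_fin plan_language XX XX_pos cnt_rea cnt_enP cnt_qry cnt_acP cnt_ctP
  cnt_mainP cnt_finP
open Pool.Agent.TH588.WD.Cmd
open Pool.Agent.H630R2.LA (Sym LimAut card_Sym)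
open Pool.Agent.TH588.LQ (bl Bits cod ini Vx val mkv lV length_lV lQ length_lQ nn two_le_bl card_Q)

variable {A : Type} [Finite A] {strict : Prop} {M : LimAut A} {c0 : M.W} {s : ℕ}
  {e : M.Q ≃ Fin s} {mm : ℕ} {P : LB.BranchProg mm}

/-- The bound for the number of control states of the reachability program. -/
noncomputable def XX (M : LimAut A) (s N : ℕ) : ℕ :=
  N * (6 * bl s + Nat.card (Tp M) + 5)

theorem cnt_rea {src : Bool} {n' lp : ℕ} {c : M.W} {fn : Bool} (hn : n' ≤ 2 * bl s)
    (u v : Vx M s) : (rea strict M e P src n' fn lp c u v).cnt ≤ XX M s P.size := by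
  unfold rea XX
  exact cnt_rch (fun u v => cnt_edP hn u v) u v

omit [Finite A] in
theorem XX_pos (P : LB.BranchProg mm) (M : LimAut A) (s : ℕ) :
    6 * bl s + Nat.card (Tp M) + 5 ≤ XX M s P.size := by
  unfold XX
  have : 0 < P.size := lt_of_le_of_lt (Nat.zero_le _) P.start.isLt
  exact Nat.le_mul_of_pos_left _ this

theorem cnt_enP (hs : 1 ≤ s) {src : Bool} {n' lp : ℕ} {c : M.W} {fn : Bool}
    (hn : n' ≤ 2 * bl s) (q : M.Q) :
    (enP strict M e P src n' fn lp c q).cnt ≤ s * (2 * XX M s P.size) := by
  have hX := XX_pos P M s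
  unfold enP
  refine (cnt_orL _ _ (2 * XX M s P.size) ?_).trans ?_
  · intro q0
    have h1 := cnt_bitP (strict := strict) (e := e) src (Sum.inr q0)
    have h2 := cnt_rea (strict := strict) (e := e) (P := P) (src := src) (lp := lp) (c := c)
      (fn := fn) hn (mkv M q0 1 0) (mkv M q (nn n' fn + 1) (nn n' fn))
    simp only [cnt]
    omega
  · rw [length_lQ, card_Q e]

theorem cnt_qry (hs : 1 ≤ s) {lp : ℕ} {c : M.W} (k : Fin (bl s)) :
    (qry strict M e P lp c k).cnt ≤ s * (2 * XX M s P.size) := by
  have hX := XX_pos P M s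
  unfold qry
  split
  · refine (cnt_rea (by omega) _ _).trans ?_
    have : 1 * XX M s P.size ≤ s * (2 * XX M s P.size) := Nat.mul_le_mul hs (by omega)
    omega
  · exact cnt_enP hs (by omega) _

theorem cnt_acP (hs : 1 ≤ s) {src : Bool} {n' lp : ℕ} {c : M.W} (hn : n' ≤ 2 * bl s) :
    (acP strict M e P src n' lp c).cnt ≤ s * (s * (2 * XX M s P.size)) := by
  classical
  unfold acP
  refine (cnt_orL _ _ (s * (2 * XX M s P.size)) ?_).trans ?_
  · intro f
    split
    · exact cnt_enP hs hn f
    · exact Nat.zero_le _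
  · rw [length_lQ, card_Q e]

theorem cnt_ctP (hs : 1 ≤ s) {src : Bool} {n' : ℕ} {c : M.W} (hn : n' ≤ 2 * bl s) :
    (ctP strict M e P src n' c).cnt ≤ s * (s * (3 * XX M s P.size)) := by
  classical
  have hX := XX_pos P M s
  unfold ctP
  refine (cnt_orL _ _ (s * (3 * XX M s P.size)) ?_).trans ?_
  · intro q
    have h1 := cnt_enP (strict := strict) (e := e) (P := P) hs (src := src) (lp := 0) (c := c)
      (fn := false) hn q
    have h2 : 1 * XX M s P.size ≤ s * XX M s P.size := Nat.mul_le_mul_right _ hs
    have h3 : s * (3 * XX M s P.size) = s * (2 * XX M s P.size) + s * XX M s P.size := by ring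
    simp only [cnt, cnt_chk]
    omega
  · rw [length_lQ, card_Q e]

theorem cnt_mainP (hs : 1 ≤ s) (k : Fin (bl s)) :
    (mainP strict M c0 e P k).cnt + 1 ≤ 30 * (Nat.card M.W * (s * (s * XX M s P.size))) := by
  have hW1 : 1 ≤ Nat.card M.W := by
    have := M.finW
    have : Nonempty M.W := ⟨c0⟩
    exact Nat.card_pos
  have hB := two_le_bl hs
  have hX := XX_pos P M s
  obtain ⟨a1, a2, a3, a4⟩ := arithS s (XX M s P.size) hs
  have hk := k.isLt
  set Y := s * (s * XX M s P.size) with hY
  let _ : Inhabited (Bool × M.W) := ⟨(false, c0)⟩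
  have h1 := cnt_withC (W := M.W) (S := Tp M) (R := Bool × M.W) (C1 := 3 * Y) (C2 := Y)
    (c0 := c0) (ct := ctP strict M e P false (k.val - 1))
    (body := fun c => mvs true k.val (ret (ini strict M ((cod M e).symm k), c)))
    (fun c => by
      have := cnt_ctP (strict := strict) (e := e) (P := P) hs (src := false)
        (n' := k.val - 1) (c := c) (by omega)
      omega)
    (fun c => by
      simp only [cnt_mvs, cnt]
      omega) (lW M)
  have h2 := cnt_withC (W := M.W) (S := Tp M) (R := Bool × M.W) (C1 := 3 * Y) (C2 := 4 * Y)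
    (c0 := c0) (ct := ctP strict M e P true (bl s + k.val - 1))
    (body := fun c => ite (qry strict M e P (bl s + k.val) c k)
        (mvs true (bl s + k.val) (ret (true, c))) (mvs true (bl s + k.val) (ret (false, c))))
    (fun c => by
      have := cnt_ctP (strict := strict) (e := e) (P := P) hs (src := true)
        (n' := bl s + k.val - 1) (c := c) (by omega)
      omega)
    (fun c => by
      have := cnt_qry (strict := strict) (e := e) (P := P) hs (lp := bl s + k.val) (c := c) k
      simp only [cnt_mvs, cnt]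
      omega) (lW M)
  rw [length_lW] at h1 h2
  have h3 : Nat.card M.W * (3 * Y + Y) = 4 * (Nat.card M.W * Y) := by ring
  have h4 : Nat.card M.W * (3 * Y + 4 * Y) = 7 * (Nat.card M.W * Y) := by ring
  have h5 : Y ≤ Nat.card M.W * Y := Nat.le_mul_of_pos_left _ hW1
  unfold mainP
  simp only [cnt_mvs, cnt, cnt_act] at h1 h2 ⊢
  omega

theorem cnt_finP (hs : 1 ≤ s) (k : Fin (bl s)) :
    (finP strict M c0 e P k).cnt ≤ 30 * (Nat.card M.W * (s * (s * XX M s P.size))) := by
  have hW1 : 1 ≤ Nat.card M.W := by
    have := M.finW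
    have : Nonempty M.W := ⟨c0⟩
    exact Nat.card_pos
  have hB := two_le_bl hs
  have hX := XX_pos P M s
  obtain ⟨a1, a2, a3, a4⟩ := arithS s (XX M s P.size) hs
  have hk := k.isLt
  set Y := s * (s * XX M s P.size) with hY
  have h1 := cnt_withC (W := M.W) (S := Tp M) (R := Bool) (C1 := 3 * Y) (C2 := 4 * Y)
    (c0 := c0) (ct := ctP strict M e P false (k.val - 1))
    (body := fun c => thenRight (acP strict M e P false k.val k.val c) k.val)
    (fun c => by
      have := cnt_ctP (strict := strict) (e := e) (P := P) hs (src := false)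
        (n' := k.val - 1) (c := c) (by omega)
      omega)
    (fun c => by
      have := cnt_acP (strict := strict) (e := e) (P := P) hs (src := false) (n' := k.val)
        (lp := k.val) (c := c) (by omega)
      simp only [cnt_thenRight]
      omega) (lW M)
  have h2 := cnt_withC (W := M.W) (S := Tp M) (R := Bool) (C1 := 3 * Y) (C2 := 4 * Y)
    (c0 := c0) (ct := ctP strict M e P true (bl s + k.val - 1))
    (body := fun c => thenRight (acP strict M e P true (bl s + k.val) (bl s + k.val) c)
        (bl s + k.val))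
    (fun c => by
      have := cnt_ctP (strict := strict) (e := e) (P := P) hs (src := true)
        (n' := bl s + k.val - 1) (c := c) (by omega)
      omega)
    (fun c => by
      have := cnt_acP (strict := strict) (e := e) (P := P) hs (src := true) (n' := bl s + k.val)
        (lp := bl s + k.val) (c := c) (by omega)
      simp only [cnt_thenRight]
      omega) (lW M)
  rw [length_lW] at h1 h2
  have h4 : Nat.card M.W * (3 * Y + 4 * Y) = 7 * (Nat.card M.W * Y) := by ring
  have h5 : Y ≤ Nat.card M.W * Y := Nat.le_mul_of_pos_left _ hW1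
  have h6 := cnt_acP (strict := strict) (e := e) (P := P) hs (src := false) (n' := 0)
        (lp := 0) (c := c0) (by omega)
  have h7 : (if k.val = 0 then acP strict M e P false 0 0 c0 else
      withC (ctP strict M e P false (k.val - 1))
        (fun c => thenRight (acP strict M e P false k.val k.val c) k.val) c0 (lW M)).cnt ≤
      11 * (Nat.card M.W * Y) := by
    split <;> omega
  unfold finP
  simp only [cnt_mvs, cnt, cnt_act] at h2 h7 ⊢
  omega


/-- **Determinization** of automata without choice what to write, by a branching program for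
connectivity. -/
theorem exists_small (M : LimAut A) (strict : Prop) (hW : WriteDet strict M) {mm : ℕ}
    (P : LB.BranchProg mm) (hP : P.DecidesConn) (hm : 4 * M.size ^ 5 ≤ mm) :
    ∃ M' : LimAut A, M'.Deterministic ∧ M'.language strict = M.language strict ∧
      M'.size ≤ 7140 * M.size ^ 9 * P.size := by
  have hfin := M.finQ
  have hfinW := M.finW
  have hP1 : 1 ≤ P.size := lt_of_le_of_lt (Nat.zero_le _) P.start.isLt
  have hq : Nat.card M.Q + Nat.card A + Nat.card M.W + 3 ≤ M.size := by
    unfold LimAut.size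
    omega
  have hq1 : 1 ≤ Nat.card M.Q := by
    have : Nonempty M.Q := ⟨M.q0⟩
    exact Nat.card_pos
  rcases isEmpty_or_nonempty M.W with hemp | ⟨⟨c0⟩⟩
  · -- there are no moves
    refine ⟨M, fun q σ x hx y hy => hemp.elim x.2.1, rfl, ?_⟩
    calc M.size = 1 * M.size ^ 1 * 1 := by ring
      _ ≤ 7140 * M.size ^ 9 * P.size :=
        Nat.mul_le_mul (Nat.mul_le_mul (by omega) (Nat.pow_le_pow_right (by omega) (by omega))) hP1
  obtain ⟨n, hn⟩ : ∃ n, n = M.size := ⟨_, rfl⟩
  rw [← hn] at hq hm ⊢
  obtain ⟨s, hs⟩ : ∃ s, s = Nat.card M.Q := ⟨_, rfl⟩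
  have e : M.Q ≃ Fin s := by rw [hs]; exact Finite.equivFin M.Q
  have hs1 : 1 ≤ s := by omega
  have hfinR : Finite (Bool × M.W) := inferInstance
  let _ : Inhabited (Bool × M.W) := ⟨(false, c0)⟩
  have hW1 : 1 ≤ Nat.card M.W := by
    have : Nonempty M.W := ⟨c0⟩
    exact Nat.card_pos
  have hsn : s + 3 ≤ n := by omega
  have hwn : Nat.card M.W ≤ n := by omega
  have hB : bl s + 1 ≤ n * n := by
    unfold bl
    nlinarith
  have hTp : Nat.card (Tp M) = Nat.card (WR A (Bool × M.W)) + 2 := card_Sym _
  have hWR : Nat.card (WR A (Bool × M.W)) = Nat.card A * (2 * Nat.card M.W + 1) + 1 := by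
    rw [card_WR, Nat.card_prod]
    simp
  have hT : Nat.card (Tp M) ≤ n * n := by
    rw [hTp, hWR]
    have h1 : Nat.card A + Nat.card M.W + 4 ≤ n := by omega
    nlinarith [Nat.mul_le_mul h1 h1, Nat.zero_le (Nat.card A * Nat.card M.W)]
  have hV : Nat.card (Vx M s) + 2 ≤ mm := by
    rw [Nat.card_prod, card_Q e, Nat.card_prod]
    simp only [Nat.card_eq_fintype_card, Fintype.card_fin]
    have h1 : 2 * bl s + 2 ≤ 2 * (n * n) := by omega
    have h2 : s * ((2 * bl s + 2) * (2 * bl s + 2)) ≤ s * ((2 * (n * n)) * (2 * (n * n))) :=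
      Nat.mul_le_mul_left _ (Nat.mul_le_mul h1 h1)
    have h3 : s * ((2 * (n * n)) * (2 * (n * n))) + 3 * ((2 * (n * n)) * (2 * (n * n))) ≤
        n * ((2 * (n * n)) * (2 * (n * n))) := by
      rw [← Nat.add_mul]
      exact Nat.mul_le_mul_right _ hsn
    have h4 : n * ((2 * (n * n)) * (2 * (n * n))) = 4 * n ^ 5 := by ring
    have h5 : 1 ≤ (2 * (n * n)) * (2 * (n * n)) := by
      have : 0 < n * n := Nat.mul_pos (by omega) (by omega)
      exact Nat.mul_pos (by omega) (by omega)
    omega
  have hX : XX M s P.size ≤ P.size * (7 * (n * n)) := by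
    unfold XX
    exact Nat.mul_le_mul_left _ (by omega)
  have hXpos := XX_pos P M s
  obtain ⟨a1, a2, a3, a4⟩ := arithS s (XX M s P.size) hs1
  have hcard := Plan.card_QS_le (P := plan strict M c0 e P hs1)
    (Z := 30 * (Nat.card M.W * (s * (s * XX M s P.size))))
    (by
      rw [Nat.card_prod]
      have h1 : Nat.card M.W * 1 ≤ Nat.card M.W * (s * (s * XX M s P.size)) :=
        Nat.mul_le_mul_left _ (by omega)
      have h2 : Nat.card Bool = 2 := by simp
      rw [h2]
      omega)
    (by
      have h1 : 1 ≤ Nat.card M.W * (s * (s * XX M s P.size)) :=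
        Nat.mul_pos hW1 (by omega)
      omega)
    (fun k => cnt_mainP hs1 k) (fun k => cnt_finP hs1 k)
  have hZpos : 1 ≤ bl s * (30 * (Nat.card M.W * (s * (s * XX M s P.size)))) := by
    have h1 : 1 ≤ Nat.card M.W * (s * (s * XX M s P.size)) :=
      Nat.mul_pos hW1 (by omega)
    have h2 := two_le_bl hs1
    exact Nat.mul_pos (by omega) (by omega)
  have hsize := Plan.size_mach_le (P := plan strict M c0 e P hs1) hZpos hcard
    (Y := Nat.card (Tp M)) (le_of_eq hTp.symm) (by
      rw [hTp, hWR]
      nlinarith [Nat.zero_le (Nat.card A * Nat.card M.W)])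
  refine ⟨(plan strict M c0 e P hs1).mach, Plan.mach_det _,
    plan_language hW hs1 hP hV, hsize.trans ?_⟩
  calc 34 * (bl s * (30 * (Nat.card M.W * (s * (s * XX M s P.size)))) * Nat.card (Tp M))
      = 1020 * (bl s * (Nat.card M.W * (s * (s * (XX M s P.size * Nat.card (Tp M)))))) := by
        ring
    _ ≤ 1020 * ((n * n) * (n * (n * (n * ((P.size * (7 * (n * n))) * (n * n)))))) :=
        Nat.mul_le_mul_left _ (Nat.mul_le_mul (by omega) (Nat.mul_le_mul hwn
          (Nat.mul_le_mul (by omega) (Nat.mul_le_mul (by omega) (Nat.mul_le_mul hX hT)))))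
    _ = 7140 * n ^ 9 * P.size := by ring

end Pool.Agent.H644.LD
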