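import Pool.Agent.H644.LB.Graph
import Pool.Agent.H644.LB.Final
import Pool.Agent.H644.LD.Size
import Pool.Graph.R_seed8.Y527.LA.NoCh
import Pool.Graph.R_seed8.Y527.LA.OneWay

/-! Automata without choice what to write, and the cost of removing the choice what to write (the
definitions and the first lemmas are those of the module `WritingChoice` of the library). -/

set_option autoImplicit false

namespace Pool.Agent.H644.LD

open Pool.Agent.H630R2.LA Filter Relation
open Pool.Agent.Y527.LA (NoChoice OneWay NeverRewrites nfaM nfaM_oneWay nfaM_never nfaM_language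
  nfaM_size)
open LB (connSize)

/-- A class of 1-limited automata, for all input alphabets. -/
abbrev Cls : Type 1 := ∀ A : Type, LimAut A → Prop

/-- The least size of an automaton of the class `C` with the language `L`. -/
noncomputable def sizeIn (C : Cls) (strict : Prop) {A : Type} (L : Set (List A)) : ℕ :=
  sInf {s | ∃ M : LimAut A, C A M ∧ M.language strict = L ∧ M.size = s}

/-- The values `sizeIn C L(M)`, for all 1-limited automata `M` of size at most `n`. -/
def costsIn (C : Cls) (strict : Prop) (n : ℕ) : Set ℕ :=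
  {s | ∃ (A : Type) (_ : Finite A) (M : LimAut A), M.size ≤ n ∧
    s = sizeIn C strict (M.language strict)}

/-- The cost of the conversion of 1-limited automata to automata of the class `C`. -/
noncomputable def cost (C : Cls) (strict : Prop) (n : ℕ) : ℕ := sSup (costsIn C strict n)

/-- The class `C` contains all one-way automata that never rewrite, and its members have no choice
what to write. -/
structure Between (strict : Prop) (C : Cls) : Prop where
  oneWay : ∀ (A : Type) (M : LimAut A), OneWay M → NeverRewrites M → C A M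
  noChoice : ∀ (A : Type) (M : LimAut A), C A M → NoChoice strict M

theorem noChoice_of_never {A : Type} (strict : Prop) (M : LimAut A) (h : NeverRewrites M) :
    NoChoice strict M := by
  intro w c c' h1 h2 h3 h4 h5 h6 h7 h8 q b d q' b' d' h10 h11
  obtain ⟨m, hm', hseen, htape, -⟩ := forward w c h1
  have hlt : m < c.pos := by
    by_contra hcon
    exact h6 ((hseen c.pos h3).2 (by omega))
  obtain ⟨i, hi⟩ : ∃ i, c.pos = i + 1 := ⟨c.pos - 1, by omega⟩
  have hcell : c.tape c.pos = .sym (M.inp w[i]) := by
    rw [htape c.pos hlt, hi]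
    simp only [initTape, List.getElem?_eq_getElem (show i < w.length by omega)]
  rw [hcell] at h10 h11
  have e1 : Sym.sym b = Sym.sym (M.inp w[i]) := h _ _ _ h10
  have e2 : Sym.sym b' = Sym.sym (M.inp w[i]) := h _ _ _ h11
  have e3 := e1.trans e2.symm
  simpa using e3

section

variable {strict : Prop} {C : Cls}

theorem sizeIn_le (hC : Between strict C) {A : Type} [Finite A] (M : LimAut A) :
    sizeIn C strict (M.language strict) ≤ 2 ^ (2 * M.size ^ 2) := by
  have h : sizeIn C strict (M.language strict) ≤ (nfaM strict M).size :=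
    Nat.sInf_le ⟨_, hC.oneWay A _ nfaM_oneWay nfaM_never, nfaM_language strict, rfl⟩
  exact h.trans nfaM_size

theorem sizeIn_mem (hC : Between strict C) {A : Type} [Finite A] (M : LimAut A) :
    ∃ M' : LimAut A, C A M' ∧ M'.language strict = M.language strict ∧
      M'.size = sizeIn C strict (M.language strict) := by
  have hne : {s | ∃ M' : LimAut A, C A M' ∧ M'.language strict = M.language strict ∧
      M'.size = s}.Nonempty :=
    ⟨_, _, hC.oneWay A _ nfaM_oneWay nfaM_never, nfaM_language strict, rfl⟩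
  exact Nat.sInf_mem hne

theorem cost_bdd (hC : Between strict C) (n : ℕ) : BddAbove (costsIn C strict n) := by
  refine ⟨2 ^ (2 * n ^ 2), ?_⟩
  rintro s ⟨A, hA, M, hM, rfl⟩
  exact (sizeIn_le hC M).trans (Nat.pow_le_pow_right (by omega)
    (Nat.mul_le_mul_left _ (Nat.pow_le_pow_left hM 2)))

end

/-- Determinization of the automata without choice what to write. -/
theorem det_noChoice (strict : Prop) {A : Type} [Finite A] (M : LimAut A) (h : NoChoice strict M)
    (m : ℕ) (hm : 4 * M.size ^ 5 ≤ m) :
    ∃ M' : LimAut A, M'.Deterministic ∧ M'.language strict = M.language strict ∧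
      M'.size ≤ 7140 * M.size ^ 9 * connSize m := by
  obtain ⟨P, hP, hs⟩ := LB.exists_least m
  rw [← hs]
  exact exists_small M strict h P hP hm

/-- The cost of determinizing is bounded in terms of the cost of removing the choice what to write. -/
theorem D_le_cost (strict : Prop) (C : Cls) (hC : Between strict C) (n m : ℕ)
    (hm : 4 * cost C strict n ^ 5 ≤ m) :
    D strict n ≤ 7140 * cost C strict n ^ 9 * connSize m := by
  unfold D
  rcases Set.eq_empty_or_nonempty (costs strict n) with h | h
  · rw [h, csSup_empty]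
    exact Nat.zero_le _
  · refine csSup_le h ?_
    rintro s ⟨A, hA, M, hM, rfl⟩
    obtain ⟨M1, h1, h2, h3⟩ := sizeIn_mem hC M
    have h8 : M1.size ≤ cost C strict n := by
      rw [h3]
      exact le_csSup (cost_bdd hC n) ⟨A, hA, M, hM, rfl⟩
    obtain ⟨M2, h4, h5, h6⟩ := det_noChoice strict M1 (hC.noChoice _ _ h1) m
      (le_trans (Nat.mul_le_mul_left _ (Nat.pow_le_pow_left h8 5)) hm)
    have h7 : detSize strict (M.language strict) ≤ M2.size :=
      Nat.sInf_le ⟨M2, h4, h5.trans h2, rfl⟩
    refine (h7.trans h6).trans (Nat.mul_le_mul_right _ (Nat.mul_le_mul_left _ ?_))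
    exact Nat.pow_le_pow_left h8 9

/-- Arithmetic. -/
theorem poly_bound {k m0 : ℕ} (h : ∀ m, m0 ≤ m → connSize m ≤ m ^ k) (n : ℕ) (hn : 2 ≤ n) :
    4 * n ^ 5 ≤ 4 * n ^ 5 + m0 ∧
      7140 * n ^ 9 * connSize (4 * n ^ 5 + m0) ≤ n ^ (22 + (7 + m0) * k) := by
  refine ⟨Nat.le_add_right _ _, ?_⟩
  have h1 : connSize (4 * n ^ 5 + m0) ≤ (4 * n ^ 5 + m0) ^ k := h _ (Nat.le_add_left _ _)
  have h2 : 4 * n ^ 5 + m0 ≤ n ^ (7 + m0) := by
    have h3 : m0 + 4 ≤ n ^ (m0 + 2) := by
      have h4 : m0 + 4 ≤ 2 ^ (m0 + 2) := by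
        clear h h1
        induction m0 with
        | zero => norm_num
        | succ i ih => rw [show i + 1 + 2 = (i + 2) + 1 by omega, pow_succ]; omega
      exact h4.trans (Nat.pow_le_pow_left hn _)
    have h5 : 1 ≤ n ^ 5 := Nat.one_le_pow _ _ (by omega)
    calc 4 * n ^ 5 + m0 ≤ n ^ 5 * (m0 + 4) := by nlinarith
      _ ≤ n ^ 5 * n ^ (m0 + 2) := Nat.mul_le_mul_left _ h3
      _ = n ^ (7 + m0) := by rw [← pow_add]; congr 1; omega
  have h6 : 7140 ≤ n ^ 13 := by
    calc 7140 ≤ 2 ^ 13 := by norm_num
      _ ≤ n ^ 13 := Nat.pow_le_pow_left hn _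
  calc 7140 * n ^ 9 * connSize (4 * n ^ 5 + m0)
      ≤ n ^ 13 * n ^ 9 * (n ^ (7 + m0)) ^ k :=
        Nat.mul_le_mul (Nat.mul_le_mul_right _ h6) (h1.trans (Nat.pow_le_pow_left h2 k))
    _ = n ^ (22 + (7 + m0) * k) := by
        rw [← pow_mul, ← pow_add, ← pow_add]

/-- If connectivity has branching programs of polynomial size then the automata without choice what to
write can be determinized at a polynomial cost. -/
theorem poly_det (strict : Prop) (k : ℕ) (h : ∀ᶠ m in atTop, connSize m ≤ m ^ k) :
    ∃ c : ℕ, ∀ (A : Type) [Finite A] (M : LimAut A), NoChoice strict M →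
      ∃ M' : LimAut A, M'.Deterministic ∧ M'.language strict = M.language strict ∧
        M'.size ≤ M.size ^ c := by
  obtain ⟨m0, hm0⟩ := eventually_atTop.1 h
  refine ⟨22 + (7 + m0) * k, fun A _ M hM => ?_⟩
  have hs : 2 ≤ M.size := by
    unfold LimAut.size
    omega
  obtain ⟨h1, h2⟩ := poly_bound hm0 M.size hs
  obtain ⟨M', h3, h4, h5⟩ := det_noChoice strict M hM _ h1
  exact ⟨M', h3, h4, h5.trans h2⟩

/-- ... and then the cost of determinizing is polynomial in the cost of removing the choice. -/
theorem poly_cost (strict : Prop) (k : ℕ) (h : ∀ᶠ m in atTop, connSize m ≤ m ^ k) :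
    ∃ c : ℕ, ∀ C : Cls, Between strict C → ∀ n : ℕ, D strict n ≤ cost C strict n ^ c := by
  obtain ⟨m0, hm0⟩ := eventually_atTop.1 h
  refine ⟨22 + (7 + m0) * k, fun C hC n => ?_⟩
  rcases Set.eq_empty_or_nonempty (costs strict n) with h0 | ⟨s, A, hA, M, hM, -⟩
  · unfold D
    rw [h0, csSup_empty]
    exact Nat.zero_le _
  · have h2 : 2 ≤ cost C strict n := by
      obtain ⟨M1, h1, h2, h3⟩ := sizeIn_mem hC M
      have h4 : 2 ≤ M1.size := by
        unfold LimAut.size
        omega
      rw [h3] at h4
      exact h4.trans (le_csSup (cost_bdd hC n) ⟨A, hA, M, hM, rfl⟩)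
    obtain ⟨h3, h4⟩ := poly_bound hm0 _ h2
    exact (D_le_cost strict C hC n _ h3).trans h4

end Pool.Agent.H644.LD
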