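import Pool.Agent.H644.LD.Run
import Pool.Graph.R_seed8.TH588.WD.Sim

/-!
# The programs of the deterministic simulation (adapted from the module `WD.Prog` of the library, with a
branching program for connectivity in the place of Savitch's procedure)
-/

set_option autoImplicit false

namespace Pool.Agent.H644.LD

open Relation
open Pool.Agent.TH588.WD hiding rea decides_rea enP decides_enP ctP decides_ctP
open Pool.Agent.TH588.WD.Cmd
open Pool.Agent.H630R2.LA (Sym LimAut fz Tab ext initTape Tab_zero)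
open Pool.Agent.TH588.LQ (bl Bits cod ini Vx val mkv val_mkv val_inj lV mem_lV length_lV lQ mem_lQ
  length_lQ nn pw_iff)

variable {A : Type} [Finite A] {strict : Prop} {M : LimAut A} {c0 : M.W} {s : ℕ} {e : M.Q ≃ Fin s}

instance finVx (M : LimAut A) (s : ℕ) : Finite (Vx M s) := by
  have := M.finQ
  show Finite (M.Q × Fin (2 * bl s + 2) × Fin (2 * bl s + 2))
  infer_instance

open Classical in
/-- Reachability in the graph. -/
noncomputable def rea (strict : Prop) (M : LimAut A) (e : M.Q ≃ Fin s) {mm : ℕ} (P : LB.BranchProg mm)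
    (src : Bool) (n' : ℕ) (fn : Bool) (lp : ℕ) (c : M.W) (u v : Vx M s) : Cmd (Tp M) Bool :=
  rch P (edP strict M e src n' fn lp c) u v

theorem decides_rea {mm : ℕ} {P : LB.BranchProg mm} (hP : P.DecidesConn) (hK : Nat.card (Vx M s) + 2 ≤ mm) {w : List A} {τ : ℕ → Tp M}
    {hi m n' lp : ℕ} {c : M.W} {src fn : Bool}
    (hm1 : m + 1 ≤ hi) (hT : TapeOK strict M c0 e w τ hi m n' src lp c)
    (hfn : fn = true → m + n' = w.length) (hN : nn n' fn ≤ 2 * bl s)
    (u v : Vx M s) :
    Decides τ hi (rea strict M e P src n' fn lp c u v) (m + 1) (m + 1)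
      (ReflTransGen (GS strict M c0 w m (nn n' fn)) (val M u) (val M v)) := by
  unfold rea
  exact (decides_rch hP hK (by omega) hm1 (decides_edP hT hfn) u v).congr (reach_val hN)

/-- Can `q` be the first state after the cells of the graph? -/
noncomputable def enP (strict : Prop) (M : LimAut A) (e : M.Q ≃ Fin s) {mm : ℕ} (P : LB.BranchProg mm) (src : Bool)
    (n' : ℕ) (fn : Bool) (lp : ℕ) (c : M.W) (q : M.Q) : Cmd (Tp M) Bool :=
  orL (lQ M) (fun q0 => ite (bitP strict M e src (Sum.inr q0))
    (rea strict M e P src n' fn lp c (mkv M q0 1 0) (mkv M q (nn n' fn + 1) (nn n' fn)))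
    (ret false))

theorem decides_enP (hW : WriteDet strict M)
    {mm : ℕ} {P : LB.BranchProg mm} (hP : P.DecidesConn) (hK : Nat.card (Vx M s) + 2 ≤ mm) {w : List A} {τ : ℕ → Tp M}
    {hi m n' lp : ℕ} {c : M.W} {src fn : Bool}
    (hm1 : m + 1 ≤ hi) (hT : TapeOK strict M c0 e w τ hi m n' src lp c)
    (hfn : fn = true → m + n' = w.length) (hN : nn n' fn ≤ 2 * bl s)
    (q : M.Q) :
    Decides τ hi (enP strict M e P src n' fn lp c q) (m + 1) (m + 1)
      (Ent strict M w (m + nn n' fn) q) := by
  unfold enP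
  have key : ∀ q0, Decides τ hi (ite (bitP strict M e src (Sum.inr q0))
      (rea strict M e P src n' fn lp c (mkv M q0 1 0) (mkv M q (nn n' fn + 1) (nn n' fn)))
      (ret false)) (m + 1) (m + 1) (Ent strict M w m q0 ∧
        ReflTransGen (GS strict M c0 w m (nn n' fn)) (q0, 1, 0) (q, nn n' fn + 1, nn n' fn)) := by
    intro q0
    have h1 := decides_rea hP hK hm1 hT hfn hN (mkv M q0 1 0)
      (mkv M q (nn n' fn + 1) (nn n' fn))
    rw [val_mkv M q0 (by omega) (by omega), val_mkv M q (by omega) (by omega)] at h1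
    exact (decides_ite (χ := False) (hT.bit (Sum.inr q0)) (fun _ => h1)
      (fun _ => (decides_ret _ _ _ _).congr (by simp))).congr (by simp [btv])
  refine (decides_orL _ _ _ key).congr ?_
  rw [ent_iff (c0 := c0) hW]
  constructor
  · rintro ⟨q0, _, h⟩; exact ⟨q0, h⟩
  · rintro ⟨q0, h⟩; exact ⟨q0, mem_lQ M q0, h⟩

open Classical in
/-- Is `c` written in the cell `m + n' + 1`? -/
noncomputable def ctP (strict : Prop) (M : LimAut A) (e : M.Q ≃ Fin s) {mm : ℕ} (P : LB.BranchProg mm) (src : Bool)
    (n' : ℕ) (c : M.W) : Cmd (Tp M) Bool :=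
  orL (lQ M) (fun q => ite (chk (fun σ => match σ with
      | .sym (.mark a _) => decide (∃ r d, (r, c, d) ∈ M.δ q (.sym (M.inp a)))
      | _ => false) n')
    (enP strict M e P src n' false 0 c q) (ret false))

theorem decides_ctP (hW : WriteDet strict M)
    {mm : ℕ} {P : LB.BranchProg mm} (hP : P.DecidesConn) (hK : Nat.card (Vx M s) + 2 ≤ mm) {w : List A} {τ : ℕ → Tp M}
    {hi m n' : ℕ} {c : M.W} {src : Bool}
    (hT : TapeOK strict M c0 e w τ hi m n' src 0 c) (hN : n' ≤ 2 * bl s)
    (hl : ∃ a r, w[m + n']? = some a ∧ τ (m + n' + 1) = .sym (.mark a r))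
    (hhi : m + n' + 1 ≤ hi) :
    Decides τ hi (ctP strict M e P src n' c) (m + 1) (m + 1) (Wr strict M w (m + n') c) := by
  classical
  obtain ⟨a, r, ha, hτ⟩ := hl
  have hini : initTape M w (m + n' + 1) = .sym (M.inp a) := by simp only [initTape, ha]
  unfold ctP
  have key : ∀ q, Decides τ hi (ite (chk (fun σ => match σ with
      | .sym (.mark a _) => decide (∃ r d, (r, c, d) ∈ M.δ q (.sym (M.inp a)))
      | _ => false) n')
      (enP strict M e P src n' false 0 c q) (ret false)) (m + 1) (m + 1)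
      ((∃ r d, (r, c, d) ∈ M.δ q (.sym (M.inp a))) ∧ Ent strict M w (m + n') q) := by
    intro q
    have h1 := decides_enP (fn := false) hW hP hK (by omega) hT (fun h => absurd h (by simp)) hN q
    have h2 : Decides τ hi (chk (fun σ => match σ with
      | .sym (.mark a _) => decide (∃ r d, (r, c, d) ∈ M.δ q (.sym (M.inp a)))
      | _ => false) n') (m + 1) (m + 1) (∃ r d, (r, c, d) ∈ M.δ q (.sym (M.inp a))) := by
      refine (decides_chk _ (by omega) (by omega)).congr ?_
      have e1 : m + 1 + n' = m + n' + 1 := by omega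
      rw [e1, hτ]
      simp only [decide_eq_true_eq]
    exact (decides_ite (χ := False) h2 (fun _ => h1)
      (fun _ => (decides_ret _ _ _ _).congr (by simp))).congr
        Pool.Agent.TH588.KG.pl1
  refine (decides_orL _ _ _ key).congr ?_
  unfold Wr
  rw [hini]
  constructor
  · rintro ⟨q, _, h1, h2⟩; exact ⟨q, h2, h1⟩
  · rintro ⟨q, h1, h2⟩; exact ⟨q, mem_lQ M q, h2, h1⟩

end Pool.Agent.H644.LD
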