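import Pool.Agent.H644.LB.BP
import Pool.Graph.R_seed8.TH588.WD.Sav

/-! The execution of a branching program by a two-way head, where the queries are answered by programs. -/

set_option autoImplicit false

namespace Pool.Agent.H644.LD

open Relation
open Pool.Agent.TH588.WD
open Pool.Agent.TH588.WD.Cmd

section runs

variable {S R : Type} {Z : Type}

/-- Runs of a finite control. -/
inductive ARun (τ : ℕ → S) (hi : ℕ) (nx : Z → S → Z ⊕ R) (g : Z → S → Bool) :
    Z ⊕ R → ℕ → R → ℕ → Prop
  | done (b : R) (x : ℕ) : ARun τ hi nx g (Sum.inr b) x b x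
  | step (s : Z) (x y z : ℕ) (b : R) (hx : x ≤ hi) (h1 : g s (τ x) = true → y = x + 1)
      (h2 : g s (τ x) = false → y + 1 = x) (hr : ARun τ hi nx g (nx s (τ x)) y b z) :
      ARun τ hi nx g (Sum.inl s) x b z

theorem ARun.run {τ : ℕ → S} {hi : ℕ} {nx : Z → S → Z ⊕ R} {g : Z → S → Bool} {o : Z ⊕ R}
    {x y : ℕ} {b : R} (h : ARun τ hi nx g o x b y) (fin : Finite Z) :
    (∀ b', o = Sum.inr b' → b' = b ∧ x = y) ∧
      ∀ z, o = Sum.inl z → Run τ hi (aut Z fin z nx g) x b y := by
  induction h with
  | done b x =>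
    refine ⟨fun b' h => ⟨(Sum.inr.inj h).symm, rfl⟩, fun z h => absurd h (by simp)⟩
  | step s x y z b hx h1 h2 hr ih =>
    refine ⟨fun b' h => absurd h (by simp), fun z' h => ?_⟩
    have hs : s = z' := Sum.inl.inj h
    subst hs
    cases hn : nx s (τ x) with
    | inl s' => exact Run.loop _ _ _ s' _ _ x y z b hx hn h1 h2 (ih.2 s' hn)
    | inr b' =>
      obtain ⟨e1, e2⟩ := ih.1 b' hn
      subst e1
      subst e2
      exact Run.stop _ _ _ _ _ x y b' hx hn h1 h2

theorem run_lift {τ : ℕ → S} {hi : ℕ} {nx : Z → S → Z ⊕ R} {g : Z → S → Bool} {R' : Type}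
    {c : Cmd S R'} {x y : ℕ} {b : R'} (h : Run τ hi c x b y) :
    ∀ (emb : c.St → Z) (ex : R' → Z ⊕ R),
    (∀ s σ, nx (emb s) σ = Sum.elim (fun s => Sum.inl (emb s)) ex (c.next s σ)) →
    (∀ s σ, g (emb s) σ = c.dir s σ) → ∀ b' w, ARun τ hi nx g (ex b) y b' w →
    ARun τ hi nx g (Sum.elim (fun s => Sum.inl (emb s)) ex c.entry) x b' w := by
  induction h with
  | ret b x => intro emb ex _ _ b' w h; exact h
  | stop Z' fin z nx' g' x y b hx hf h1 h2 =>
    intro emb ex hn hg b' w h
    show ARun τ hi nx g (Sum.inl (emb z)) x b' w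
    have e1 : nx (emb z) (τ x) = ex b := by
      have h3 := hn z (τ x)
      have h4 : (aut Z' fin z nx' g').next z (τ x) = Sum.inr b := hf
      rw [h4] at h3
      exact h3
    have e2 : g (emb z) (τ x) = g' z (τ x) := hg z (τ x)
    refine ARun.step _ x y w b' hx (fun h => h1 (e2.symm.trans h)) (fun h => h2 (e2.symm.trans h)) ?_
    rw [e1]
    exact h
  | loop Z' fin z z' nx' g' x y w' b hx hf h1 h2 hr ih =>
    intro emb ex hn hg b' w h
    show ARun τ hi nx g (Sum.inl (emb z)) x b' w
    have e1 : nx (emb z) (τ x) = Sum.inl (emb z') := by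
      have h3 := hn z (τ x)
      have h4 : (aut Z' fin z nx' g').next z (τ x) = Sum.inl z' := hf
      rw [h4] at h3
      exact h3
    have e2 : g (emb z) (τ x) = g' z (τ x) := hg z (τ x)
    refine ARun.step _ x y w b' hx (fun h => h1 (e2.symm.trans h)) (fun h => h2 (e2.symm.trans h)) ?_
    rw [e1]
    exact ih emb ex hn hg b' w h
  | iteT c t e x y z b h1 h2 ih1 ih2 =>
    intro emb ex hn hg b' w h
    let emb1 : c.St → Z := fun s => emb (Sum.inl s)
    let emb2 : t.St → Z := fun s => emb (Sum.inr (Sum.inl s))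
    let emb3 : e.St → Z := fun s => emb (Sum.inr (Sum.inr s))
    let ex1 : Bool → Z ⊕ R := fun b1 => match b1 with
      | true => Sum.elim (fun s => Sum.inl (emb2 s)) ex t.entry
      | false => Sum.elim (fun s => Sum.inl (emb3 s)) ex e.entry
    have hI1 : ∀ s σ, nx (emb1 s) σ =
        Sum.elim (fun s => Sum.inl (emb1 s)) ex1 (c.next s σ) := by
      intro s σ
      refine (hn (Sum.inl s) σ).trans ?_
      simp only [next]
      rcases c.next s σ with s' | (_ | _)
      · rfl
      · simp only [Sum.elim_inr, ex1]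
        rcases e.entry with s'' | b'' <;> rfl
      · simp only [Sum.elim_inr, ex1]
        rcases t.entry with s'' | b'' <;> rfl
    have hI2 : ∀ s σ, nx (emb2 s) σ =
        Sum.elim (fun s => Sum.inl (emb2 s)) ex (t.next s σ) := by
      intro s σ
      refine (hn (Sum.inr (Sum.inl s)) σ).trans ?_
      simp only [next]
      rcases t.next s σ with s'' | b'' <;> rfl
    have h5 : Sum.elim (fun s => Sum.inl (emb s)) ex (ite c t e).entry =
        Sum.elim (fun s => Sum.inl (emb1 s)) ex1 c.entry := by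
      simp only [entry]
      rcases c.entry with s' | (_ | _)
      · rfl
      · simp only [Sum.elim_inr, ex1]
        rcases e.entry with s'' | b'' <;> rfl
      · simp only [Sum.elim_inr, ex1]
        rcases t.entry with s'' | b'' <;> rfl
    rw [h5]
    exact ih1 emb1 ex1 hI1 (fun s σ => hg (Sum.inl s) σ) b' w
      (ih2 emb2 ex hI2 (fun s σ => hg (Sum.inr (Sum.inl s)) σ) b' w h)
  | iteF c t e x y z b h1 h2 ih1 ih2 =>
    intro emb ex hn hg b' w h
    let emb1 : c.St → Z := fun s => emb (Sum.inl s)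
    let emb2 : t.St → Z := fun s => emb (Sum.inr (Sum.inl s))
    let emb3 : e.St → Z := fun s => emb (Sum.inr (Sum.inr s))
    let ex1 : Bool → Z ⊕ R := fun b1 => match b1 with
      | true => Sum.elim (fun s => Sum.inl (emb2 s)) ex t.entry
      | false => Sum.elim (fun s => Sum.inl (emb3 s)) ex e.entry
    have hI1 : ∀ s σ, nx (emb1 s) σ =
        Sum.elim (fun s => Sum.inl (emb1 s)) ex1 (c.next s σ) := by
      intro s σ
      refine (hn (Sum.inl s) σ).trans ?_
      simp only [next]
      rcases c.next s σ with s' | (_ | _)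
      · rfl
      · simp only [Sum.elim_inr, ex1]
        rcases e.entry with s'' | b'' <;> rfl
      · simp only [Sum.elim_inr, ex1]
        rcases t.entry with s'' | b'' <;> rfl
    have hI2 : ∀ s σ, nx (emb3 s) σ =
        Sum.elim (fun s => Sum.inl (emb3 s)) ex (e.next s σ) := by
      intro s σ
      refine (hn (Sum.inr (Sum.inr s)) σ).trans ?_
      simp only [next]
      rcases e.next s σ with s'' | b'' <;> rfl
    have h5 : Sum.elim (fun s => Sum.inl (emb s)) ex (ite c t e).entry =
        Sum.elim (fun s => Sum.inl (emb1 s)) ex1 c.entry := by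
      simp only [entry]
      rcases c.entry with s' | (_ | _)
      · rfl
      · simp only [Sum.elim_inr, ex1]
        rcases e.entry with s'' | b'' <;> rfl
      · simp only [Sum.elim_inr, ex1]
        rcases t.entry with s'' | b'' <;> rfl
    rw [h5]
    exact ih1 emb1 ex1 hI1 (fun s σ => hg (Sum.inl s) σ) b' w
      (ih2 emb3 ex hI2 (fun s σ => hg (Sum.inr (Sum.inr s)) σ) b' w h)

end runs

section bpr

variable {S : Type} {m : ℕ}

/-- One move to the left and one to the right, then `c`. -/
def wr (c : Cmd S Bool) : Cmd S Bool := mvs false 1 (mvs true 1 c)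

theorem cnt_wr (c : Cmd S Bool) : (wr c).cnt = c.cnt + 2 := by
  simp only [wr, cnt_mvs]
  omega

theorem run_wr {τ : ℕ → S} {hi x y : ℕ} {c : Cmd S Bool} {b : Bool} (hx : 1 ≤ x) (hx' : x ≤ hi)
    (h : Run τ hi c x b y) : Run τ hi (wr c) x b y := by
  obtain ⟨z, rfl⟩ : ∃ z, x = z + 1 := ⟨x - 1, by omega⟩
  exact run_mvs_left hx' (run_mvs_right (by omega) h)

variable (P : LB.BranchProg m) (pr : Fin m → Fin m → Cmd S Bool)

/-- The program for the query in the node `v`. -/
def qp (v : Fin P.size) : Cmd S Bool :=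
  match P.label v with
    | Sum.inl e => wr (pr e.1 e.2)
    | Sum.inr b => ret b

/-- The control states. -/
abbrev ZZ : Type := Σ v : Fin P.size, (qp P pr v).St

/-- Begin with the node `v`. -/
def go (v : Fin P.size) : ZZ P pr ⊕ Bool :=
  match P.label v with
    | Sum.inl _ => (qp P pr v).entry.map (fun s => ⟨v, s⟩) id
    | Sum.inr b => Sum.inr b

def zn : ZZ P pr → S → ZZ P pr ⊕ Bool
  | ⟨v, s⟩, σ => Sum.elim (fun s' => Sum.inl ⟨v, s'⟩) (fun b => go P pr (P.succ v b))
      ((qp P pr v).next s σ)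

def zd : ZZ P pr → S → Bool
  | ⟨v, s⟩, σ => (qp P pr v).dir s σ

/-- The program which runs `P`. -/
def bpr : Cmd S Bool :=
  match go P pr P.start with
    | Sum.inl z => aut (ZZ P pr) inferInstance z (zn P pr) (zd P pr)
    | Sum.inr b => ret b

variable {P pr}

theorem run_eval {τ : ℕ → S} {hi x : ℕ} {G : Fin m → Fin m → Bool} (hx : 1 ≤ x) (hx' : x ≤ hi)
    (h : ∀ u v, Run τ hi (pr u v) x (G u v) x) {v : Fin P.size} {b : Bool} (hE : P.Eval G v b) :
    ARun τ hi (zn P pr) (zd P pr) (go P pr v) x b x := by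
  induction hE with
  | out v b hv =>
    unfold go
    rw [hv]
    exact ARun.done _ _
  | query v e b hv hr ih =>
    have e1 : qp P pr v = wr (pr e.1 e.2) := by
      unfold qp
      rw [hv]
    have hrun : Run τ hi (qp P pr v) x (G e.1 e.2) x := by
      rw [e1]
      exact run_wr hx hx' (h e.1 e.2)
    have hent : ∃ s, (qp P pr v).entry = Sum.inl s := by
      rw [e1]
      exact ⟨Sum.inl (), rfl⟩
    have h1 := run_lift (nx := zn P pr) (g := zd P pr) hrun (fun s => ⟨v, s⟩)
      (fun b => go P pr (P.succ v b)) (fun _ _ => rfl) (fun _ _ => rfl) b x ih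
    have e2 : go P pr v = Sum.elim (fun s => Sum.inl ⟨v, s⟩)
        (fun b => go P pr (P.succ v b)) (qp P pr v).entry := by
      obtain ⟨s, hs⟩ := hent
      unfold go
      rw [hv, hs]
      rfl
    rw [e2]
    exact h1

theorem decides_bpr (hP : P.DecidesConn) {τ : ℕ → S} {hi x : ℕ} {r : Fin m → Fin m → Prop}
    (hx : 1 ≤ x) (hx' : x ≤ hi) (h : ∀ u v, Decides τ hi (pr u v) x x (r u v)) :
    Decides τ hi (bpr P pr) x x (∃ s t : Fin m, s.val = 0 ∧ t.val + 1 = m ∧ ReflTransGen r s t) := by
  classical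
  have hG : ∀ u v, Run τ hi (pr u v) x (decide (r u v)) x := by
    intro u v
    obtain ⟨b, h1, h2⟩ := h u v
    have : b = decide (r u v) := by
      cases b
      · have h3 : ¬ r u v := fun h => absurd (h2.2 h) (by simp)
        simp [h3]
      · have h3 : r u v := h2.1 rfl
        simp [h3]
    rw [← this]
    exact h1
  obtain ⟨b, h1, h2⟩ := hP fun u v => decide (r u v)
  have h3 := run_eval (pr := pr) hx hx' hG h1
  refine ⟨b, ?_, ?_⟩
  · unfold bpr
    have h4 := h3.run (inferInstance : Finite (ZZ P pr))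
    cases hgo : go P pr P.start with
    | inl z => exact h4.2 z hgo
    | inr b' =>
      have h5 := (h4.1 b' hgo).1
      subst h5
      exact Run.ret _ _
  · rw [h2]
    unfold LB.Conn
    simp only [decide_eq_true_eq]

theorem cnt_bpr {c : ℕ} (h : ∀ u v, (pr u v).cnt ≤ c) : (bpr P pr).cnt ≤ P.size * (c + 2) := by
  have h0 : Nat.card (ZZ P pr) ≤ P.size * (c + 2) := by
    rw [Nat.card_sigma]
    have h1 : ∀ v : Fin P.size, Nat.card (qp P pr v).St ≤ c + 2 := by
      intro v
      rw [card_St]
      unfold qp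
      cases P.label v with
      | inl e => 
        show (wr (pr e.1 e.2)).cnt ≤ _
        rw [cnt_wr]
        have := h e.1 e.2
        omega
      | inr b => exact Nat.zero_le _
    refine (Finset.sum_le_sum fun v _ => h1 v).trans ?_
    simp
  unfold bpr
  cases go P pr P.start with
  | inl z => exact h0
  | inr b => exact Nat.zero_le _

end bpr

section reach

variable {V : Type} [Finite V]

/-- An enumeration of `V` with the first point `u` and the last point `v`. -/
noncomputable def enu (m : ℕ) (u v : V) (i : Fin m) : V :=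
  if i.val = 0 then u else if i.val + 1 = m then v else
    if h : i.val - 1 < Nat.card V then (Finite.equivFin V).symm ⟨i.val - 1, h⟩ else u

theorem enu_surj {m : ℕ} (u v : V) (hm : Nat.card V + 2 ≤ m) (x : V) : ∃ i, enu m u v i = x := by
  have h := ((Finite.equivFin V) x).isLt
  refine ⟨⟨((Finite.equivFin V) x).val + 1, by omega⟩, ?_⟩
  unfold enu
  rw [if_neg (by simp), if_neg (by simp; omega), dif_pos (by simp)]
  simp

theorem enu_fwd {m : ℕ} (u v : V) (r : V → V → Prop) {i j : Fin m}
    (h : ReflTransGen (fun i j => enu m u v i = enu m u v j ∨ r (enu m u v i) (enu m u v j)) i j) :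
    ReflTransGen r (enu m u v i) (enu m u v j) := by
  induction h with
  | refl => exact ReflTransGen.refl
  | tail _ h ih =>
    rcases h with h | h
    · rw [← h]
      exact ih
    · exact ih.tail h

theorem enu_bwd {m : ℕ} (u v : V) (hm : Nat.card V + 2 ≤ m) (r : V → V → Prop) {x y : V}
    (h : ReflTransGen r x y) (i : Fin m) (hi : enu m u v i = x) : ∃ j, enu m u v j = y ∧
    ReflTransGen (fun i j => enu m u v i = enu m u v j ∨ r (enu m u v i) (enu m u v j)) i j := by
  induction h with
  | refl => exact ⟨i, hi, ReflTransGen.refl⟩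
  | tail _ h ih =>
    rename_i y z _
    obtain ⟨j, hj, h1⟩ := ih
    obtain ⟨k, hk⟩ := enu_surj u v hm z
    refine ⟨k, hk, h1.tail (Or.inr ?_)⟩
    rw [hj, hk]
    exact h

theorem enu_conn {m : ℕ} (u v : V) (hm : Nat.card V + 2 ≤ m) (r : V → V → Prop) :
    (∃ s t : Fin m, s.val = 0 ∧ t.val + 1 = m ∧
      ReflTransGen (fun i j => enu m u v i = enu m u v j ∨ r (enu m u v i) (enu m u v j)) s t) ↔
    ReflTransGen r u v := by
  have h1 : ∀ s : Fin m, s.val = 0 → enu m u v s = u := by
    intro s hs
    unfold enu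
    rw [if_pos hs]
  have h2 : ∀ t : Fin m, t.val + 1 = m → enu m u v t = v := by
    intro t ht
    unfold enu
    rw [if_neg (by omega), if_pos ht]
  constructor
  · rintro ⟨s, t, hs, ht, h⟩
    have h3 := enu_fwd u v r h
    rw [h1 s hs, h2 t ht] at h3
    exact h3
  · intro h
    obtain ⟨j, hj, h3⟩ := enu_bwd u v hm r h ⟨0, by omega⟩ (h1 _ rfl)
    refine ⟨⟨0, by omega⟩, ⟨m - 1, by omega⟩, rfl, ?_, h3.tail (Or.inl ?_)⟩
    · show m - 1 + 1 = m
      omega
    · rw [hj, h2 _ (by show m - 1 + 1 = m; omega)]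

open Classical in
/-- Reachability of `v` from `u`, where `ed` decides the edges. -/
noncomputable def rch {S : Type} {m : ℕ} (P : LB.BranchProg m) (ed : V → V → Cmd S Bool) (u v : V) :
    Cmd S Bool :=
  bpr P fun i j => if enu m u v i = enu m u v j then ret true else ed (enu m u v i) (enu m u v j)

theorem decides_rch {S : Type} {m : ℕ} {P : LB.BranchProg m} (hP : P.DecidesConn)
    (hm : Nat.card V + 2 ≤ m) {ed : V → V → Cmd S Bool} {r : V → V → Prop} {τ : ℕ → S} {hi x : ℕ}
    (hx : 1 ≤ x) (hx' : x ≤ hi) (he : ∀ u v, Decides τ hi (ed u v) x x (r u v)) (u v : V) :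
    Decides τ hi (rch P ed u v) x x (ReflTransGen r u v) := by
  classical
  have h := decides_bpr (P := P) (pr := fun i j => if enu m u v i = enu m u v j then ret true
    else ed (enu m u v i) (enu m u v j)) (r := fun i j => enu m u v i = enu m u v j ∨
      r (enu m u v i) (enu m u v j)) hP hx hx' (τ := τ) (by
    intro i j
    by_cases hij : enu m u v i = enu m u v j
    · simp only [if_pos hij]
      exact (decides_ret _ _ _ _).congr (by simp [hij])
    · simp only [if_neg hij]
      exact (he _ _).congr (by simp [hij]))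
  exact h.congr (enu_conn u v hm r)

theorem cnt_rch {S : Type} {m : ℕ} {P : LB.BranchProg m} {ed : V → V → Cmd S Bool} {c : ℕ}
    (hc : ∀ u v, (ed u v).cnt ≤ c) (u v : V) : (rch P ed u v).cnt ≤ P.size * (c + 2) := by
  classical
  refine cnt_bpr fun i j => ?_
  split
  · exact Nat.zero_le _
  · exact hc _ _

end reach

end Pool.Agent.H644.LD
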