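import Pool.Agent.H644.LD.Prog

/-!
# The deterministic simulation (adapted from the module `WD.Sim` of the library)
-/

set_option autoImplicit false

namespace Pool.Agent.H644.LD

open Relation
open Pool.Agent.TH588.WD hiding rea decides_rea enP decides_enP ctP decides_ctP qry acP mainP finP plan
  decides_qry decides_acP run_main decides_fin plan_language
open Pool.Agent.TH588.WD.Cmd
open Pool.Agent.H630R2.LA (Sym LimAut fz Tab ext initTape Tab_zero)
open Pool.Agent.TH588.LQ (bl Bits cod ini Vx val mkv val_mkv val_inj lV mem_lV length_lV lQ mem_lQ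
  length_lQ nn pw_iff two_le_bl)

variable {A : Type} [Finite A] (strict : Prop) (M : LimAut A) (c0 : M.W) {s : ℕ}
  (e : M.Q ≃ Fin s) {mm : ℕ} (P : LB.BranchProg mm)

/-- The next bit. -/
noncomputable def qry (lp : ℕ) (c : M.W) (k : Fin (bl s)) : Cmd (Tp M) Bool :=
  match (cod M e).symm k with
  | Sum.inl x => rea strict M e P true (bl s) false lp c (mkv M x.1 (bl s) (bl s))
      (mkv M x.2 (bl s + 1) (bl s))
  | Sum.inr q => enP strict M e P true (bl s) false lp c q

open Classical in
/-- Acceptance. -/
noncomputable def acP (src : Bool) (n' lp : ℕ) (c : M.W) : Cmd (Tp M) Bool :=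
  orL (lQ M) (fun f => if f ∈ M.F then enP strict M e P src n' true lp c f else ret false)

/-- The program for the next annotation. -/
noncomputable def mainP (k : Fin (bl s)) : Cmd (Tp M) (Bool × M.W) :=
  haveI : Inhabited (Bool × M.W) := ⟨(false, c0)⟩
  mvs false k.val (ite (act lmS lmS)
    (withC (ctP strict M e P false (k.val - 1))
      (fun c => mvs true k.val (ret (ini strict M ((cod M e).symm k), c))) c0 (lW M))
    (mvs false (bl s - 2) (withC (ctP strict M e P true (bl s + k.val - 1))
      (fun c => ite (qry strict M e P (bl s + k.val) c k)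
        (mvs true (bl s + k.val) (ret (true, c))) (mvs true (bl s + k.val) (ret (false, c))))
      c0 (lW M))))

/-- The program for acceptance. -/
noncomputable def finP (k : Fin (bl s)) : Cmd (Tp M) Bool :=
  mvs false k.val (ite (act lmS lmS)
    (if k.val = 0 then acP strict M e P false 0 0 c0 else
      withC (ctP strict M e P false (k.val - 1))
        (fun c => thenRight (acP strict M e P false k.val k.val c) k.val) c0 (lW M))
    (mvs false (bl s - 2) (withC (ctP strict M e P true (bl s + k.val - 1))
      (fun c => thenRight (acP strict M e P true (bl s + k.val) (bl s + k.val) c)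
        (bl s + k.val)) c0 (lW M))))

/-- The plan of the simulation. -/
noncomputable def plan (hs : 1 ≤ s) : Plan A (Bool × M.W) where
  B := bl s
  hB := by have := two_le_bl hs; omega
  r0 := (ini strict M ((cod M e).symm ⟨0, by have := two_le_bl hs; omega⟩), c0)
  main := mainP strict M c0 e P
  fin := finP strict M c0 e P

variable {strict M c0 e P}

theorem decides_qry (hW : WriteDet strict M)
    (hP : P.DecidesConn) (hK : Nat.card (Vx M s) + 2 ≤ mm) {w : List A} {τ : ℕ → Tp M} {hi m lp : ℕ} {c : M.W}
    (hm1 : m + 1 ≤ hi) (hT : TapeOK strict M c0 e w τ hi m (bl s) true lp c) (k : Fin (bl s)) :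
    Decides τ hi (qry strict M e P lp c k) (m + 1) (m + 1)
      (TH588.WD.btw strict M c0 e w (m + bl s) k) := by
  have hnn : nn (bl s) false = bl s := rfl
  unfold qry TH588.WD.btw
  rcases (cod M e).symm k with ⟨p, q⟩ | q
  · have h1 := decides_rea (fn := false) hP hK hm1 hT (fun h => absurd h (by simp))
      (by rw [hnn]; omega) (mkv M p (bl s) (bl s)) (mkv M q (bl s + 1) (bl s))
    rw [val_mkv M p (by omega) (by omega), val_mkv M q (by omega) (by omega), hnn] at h1
    refine h1.congr ?_
    show _ ↔ (p, q) ∈ Tab strict M (frz strict M c0 w) (m + bl s)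
    exact tab_iff.symm
  · have h1 := decides_enP (fn := false) hW hP hK hm1 hT (fun h => absurd h (by simp))
      (by rw [hnn]; omega) q
    rw [hnn] at h1
    exact h1

theorem decides_acP (hW : WriteDet strict M)
    (hP : P.DecidesConn) (hK : Nat.card (Vx M s) + 2 ≤ mm) {w : List A} {τ : ℕ → Tp M}
    {hi m n' lp : ℕ} {c : M.W} {src : Bool}
    (hm1 : m + 1 ≤ hi) (hT : TapeOK strict M c0 e w τ hi m n' src lp c)
    (hw : m + n' = w.length) (hN : n' + 1 ≤ 2 * bl s) :
    Decides τ hi (acP strict M e P src n' lp c) (m + 1) (m + 1) (w ∈ M.language strict) := by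
  classical
  have hnn : nn n' true = n' + 1 := rfl
  unfold acP
  have key : ∀ f, Decides τ hi (if f ∈ M.F then enP strict M e P src n' true lp c f
      else ret false) (m + 1) (m + 1) (f ∈ M.F ∧ Ent strict M w (w.length + 1) f) := by
    intro f
    by_cases hf : f ∈ M.F
    · rw [if_pos hf]
      have h1 := decides_enP (fn := true) hW hP hK hm1 hT (fun _ => hw) (by rw [hnn]; exact hN) f
      have h2 : m + nn n' true = w.length + 1 := by rw [hnn]; omega
      rw [h2] at h1
      exact h1.congr (by simp [hf])
    · rw [if_neg hf]
      exact (decides_ret _ _ _ _).congr (by simp [hf])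
  refine (decides_orL _ _ _ key).congr ?_
  rw [mem_language_iff]
  constructor
  · rintro ⟨f, _, h⟩; exact ⟨f, h⟩
  · rintro ⟨f, h⟩; exact ⟨f, mem_lQ M f, h⟩

theorem run_main (hW : WriteDet strict M)
    (hs : 1 ≤ s) (hP : P.DecidesConn) (hK : Nat.card (Vx M s) + 2 ≤ mm) {w : List A} {τ : ℕ → Tp M}
    {t j : ℕ} {k : Fin (bl s)} (hA : An strict M c0 e w τ t) (ht1 : 1 ≤ t)
    (htw : t ≤ w.length) (hy : t = j * bl s + k.val) :
    ∃ r, Run τ t (mainP strict M c0 e P k) t r (t + 1) ∧ (r.1 = true ↔
      TH588.WD.btw strict M c0 e w (j * bl s) k) ∧ r.2 = con strict M c0 w (t - 1) := by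
  let _ : Inhabited (Bool × M.W) := ⟨(false, c0)⟩
  have hB := two_le_bl hs
  have hk := k.isLt
  have hct : ∀ c, Wr strict M w (t - 1) c → c = con strict M c0 w (t - 1) := fun c hc =>
    (con_of_wr hW (by omega) hc).symm
  have hcd : (∀ c ∈ lW M, ¬ Wr strict M w (t - 1) c) → con strict M c0 w (t - 1) = c0 := by
    intro h
    apply con_eq_default
    rintro ⟨c, hc⟩
    exact h c (mem_lW M c) hc
  unfold mainP
  rcases Nat.eq_zero_or_pos j with hj | hj
  · subst hj
    have hz : 0 * bl s = 0 := Nat.zero_mul _
    have hyk : t = k.val := by omega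
    refine ⟨(ini strict M ((cod M e).symm k), con strict M c0 w (t - 1)), ?_, ?_, rfl⟩
    · have hrun : Run τ t (mvs false k.val (ite (act lmS lmS)
          (withC (ctP strict M e P false (k.val - 1))
            (fun c => mvs true k.val (ret (ini strict M ((cod M e).symm k), c))) c0 (lW M))
          (mvs false (bl s - 2) (withC (ctP strict M e P true (bl s + k.val - 1))
            (fun c => ite (qry strict M e P (bl s + k.val) c k)
              (mvs true (bl s + k.val) (ret (true, c)))
              (mvs true (bl s + k.val) (ret (false, c)))) c0 (lW M))))) (0 + k.val)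
          (ini strict M ((cod M e).symm k), con strict M c0 w (t - 1)) (t + 1) := by
        apply run_mvs_left (by omega)
        obtain ⟨b, hb, hb'⟩ := decides_lm_true (hi := t) hA.1
        have hbt : b = true := hb'.2 trivial
        subst hbt
        refine Run.iteT _ _ _ 0 1 (t + 1) _ hb ?_
        have h1 : (0 : ℕ) + 1 = 1 := rfl
        refine run_withC (P := fun c => Wr strict M w (t - 1) c) (fun c => ?_) hct ?_ (lW M) hcd
        · have h2 := decides_ctP (c0 := c0) (e := e) (τ := τ) (hi := t) (m := 0) (n' := k.val - 1)
            (c := c) (src := false) (w := w) hW hP hK ?_ (by omega) ?_ (by omega)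
          · have h3 : 0 + (k.val - 1) = t - 1 := by omega
            rw [h3] at h2
            exact h2
          · refine tapeOK hA le_rfl (by omega) ?_ (Or.inl (by omega)) (fun _ _ => rfl)
            intro x
            have h3 : bitP strict M e false x = ret (ini strict M x) := by
              unfold bitP
              simp
            rw [h3]
            exact (decides_ret _ _ _ _).congr (ini_iff strict M c0 w x)
          · obtain ⟨a, r, h3, h4, _⟩ := hA.2 (0 + (k.val - 1)) (by omega)
            exact ⟨a, r, h3, h4⟩
        · refine run_mvs_right (by omega) ?_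
          have h2 : 1 + k.val = t + 1 := by omega
          rw [h2]
          exact Run.ret _ _
      rw [Nat.zero_add, ← hyk] at hrun
      rw [← hyk]
      exact hrun
    · rw [hz]
      exact ini_iff strict M c0 w _
  · obtain ⟨j', rfl⟩ : ∃ j', j = j' + 1 := ⟨j - 1, by omega⟩
    have hz : (j' + 1) * bl s = j' * bl s + bl s := by ring
    have hpos : (j' + 1) * bl s = (j' * bl s + bl s - 1) + 1 := by omega
    obtain ⟨a, r, ha, hτ, -⟩ := hA.2 (j' * bl s + bl s - 1) (by omega)
    have hbits := fun x => bit_tape (hi := t) hA (j := j') (by omega) le_rfl x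
    have hq : Decides τ t (qry strict M e P (bl s + k.val) (con strict M c0 w (t - 1)) k)
        (j' * bl s + 1) (j' * bl s + 1) (TH588.WD.btw strict M c0 e w (j' * bl s + bl s) k) := by
      refine decides_qry hW hP hK (by omega) (tapeOK hA le_rfl (by omega) hbits (Or.inr ⟨by omega, ?_⟩)
        (fun _ _ => by omega)) k
      intro _
      congr 1
      omega
    obtain ⟨b, hb, hb'⟩ := hq
    refine ⟨(b, con strict M c0 w (t - 1)), ?_, ?_, rfl⟩
    · have hrun : Run τ t (mvs false k.val (ite (act lmS lmS)
          (withC (ctP strict M e P false (k.val - 1))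
            (fun c => mvs true k.val (ret (ini strict M ((cod M e).symm k), c))) c0 (lW M))
          (mvs false (bl s - 2) (withC (ctP strict M e P true (bl s + k.val - 1))
            (fun c => ite (qry strict M e P (bl s + k.val) c k)
              (mvs true (bl s + k.val) (ret (true, c)))
              (mvs true (bl s + k.val) (ret (false, c)))) c0 (lW M)))))
          ((j' * bl s + bl s - 1) + 1 + k.val) (b, con strict M c0 w (t - 1)) (t + 1) := by
        apply run_mvs_left (by omega)
        obtain ⟨b1, hb1, hb1'⟩ := decides_lm_false (hi := t) hτ (by omega)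
        have hbt : b1 = false := by
          cases b1
          · rfl
          · exact absurd (hb1'.1 rfl) (by simp)
        subst hbt
        refine Run.iteF _ _ _ _ (j' * bl s + bl s - 1) (t + 1) _ hb1 ?_
        have h1 : j' * bl s + bl s - 1 = j' * bl s + 1 + (bl s - 2) := by omega
        rw [h1]
        apply run_mvs_left (by omega)
        refine run_withC (P := fun c => Wr strict M w (t - 1) c) (fun c => ?_) hct ?_ (lW M) hcd
        · have h2 := decides_ctP (c0 := c0) (e := e) (τ := τ) (hi := t) (m := j' * bl s)
            (n' := bl s + k.val - 1) (c := c) (src := true) (w := w) hW hP hK ?_ (by omega) ?_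
            (by omega)
          · have h3 : j' * bl s + (bl s + k.val - 1) = t - 1 := by omega
            rw [h3] at h2
            exact h2
          · exact tapeOK hA le_rfl (by omega) hbits (Or.inl (by omega)) (fun _ _ => rfl)
          · obtain ⟨a, r, h3, h4, _⟩ := hA.2 (j' * bl s + (bl s + k.val - 1)) (by omega)
            exact ⟨a, r, h3, h4⟩
        · have h2 : t + 1 = j' * bl s + 1 + (bl s + k.val) := by omega
          cases b
          · refine Run.iteF _ _ _ _ (j' * bl s + 1) _ _ hb ?_
            refine run_mvs_right (by omega) ?_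
            rw [h2]
            exact Run.ret _ _
          · refine Run.iteT _ _ _ _ (j' * bl s + 1) _ _ hb ?_
            refine run_mvs_right (by omega) ?_
            rw [h2]
            exact Run.ret _ _
      have h3 : (j' * bl s + bl s - 1) + 1 + k.val = t := by omega
      rw [h3] at hrun
      exact hrun
    · rw [hz]
      exact hb'

theorem decides_fin (hW : WriteDet strict M)
    (hs : 1 ≤ s) (hP : P.DecidesConn) (hK : Nat.card (Vx M s) + 2 ≤ mm) {w : List A} {τ : ℕ → Tp M}
    {hi j t : ℕ} {k : Fin (bl s)} (hA : An strict M c0 e w τ t) (htw : t = w.length)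
    (hy : t = j * bl s + k.val) (hhi : t + 1 ≤ hi) :
    Decides τ hi (finP strict M c0 e P k) t (t + 1) (w ∈ M.language strict) := by
  have hB := two_le_bl hs
  have hk := k.isLt
  have hgoal : Decides τ hi (finP strict M c0 e P k) (j * bl s + k.val) (j * bl s + k.val + 1)
        (w ∈ M.language strict) := by
    unfold finP
    apply decides_mvs_left (by omega)
    rcases Nat.eq_zero_or_pos j with hj | hj
    · subst hj
      have hz : 0 * bl s = 0 := Nat.zero_mul _
      simp only [hz, Nat.zero_add] at hy ⊢
      have hbit0 : ∀ x, Decides τ hi (bitP strict M e false x) (0 + 1) (0 + 1)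
          (btv strict M c0 w 0 x) := by
        intro x
        have h3 : bitP strict M e false x = ret (ini strict M x) := by
          unfold bitP
          simp
        rw [h3]
        exact (decides_ret _ _ _ _).congr (ini_iff strict M c0 w x)
      refine (decides_ite (φ := True) (ψ := w ∈ M.language strict) (χ := False)
        (decides_lm_true hA.1) (fun _ => ?_) (fun h => absurd trivial h)).congr (by simp)
      by_cases hk0 : k.val = 0
      · rw [if_pos hk0, hk0]
        have h2 := decides_acP (c0 := c0) (e := e) (τ := τ) (hi := hi) (m := 0) (n' := 0)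
          (lp := 0) (c := c0) (src := false) (w := w) hW hP hK (by omega)
          (tapeOK hA (by omega) (by omega) hbit0 (Or.inr ⟨by omega, fun h => absurd h (by simp)⟩)
            (fun _ _ => rfl)) (by omega) (by omega)
        exact h2
      · rw [if_neg hk0]
        refine decides_withC (c0 := c0) (w := w) (t := t) hW (by omega) (by omega) (fun c => ?_) ?_
        · have h2 := decides_ctP (c0 := c0) (e := e) (τ := τ) (hi := hi) (m := 0)
            (n' := k.val - 1) (c := c) (src := false) (w := w) hW hP hK
            (tapeOK hA (by omega) (by omega) hbit0 (Or.inl (by omega)) (fun _ _ => rfl))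
            (by omega) ?_ (by omega)
          · have h3 : 0 + (k.val - 1) = t - 1 := by omega
            rw [h3] at h2
            exact h2
          · obtain ⟨a, r, h3, h4, _⟩ := hA.2 (0 + (k.val - 1)) (by omega)
            exact ⟨a, r, h3, h4⟩
        · have h1 : k.val + 1 = 1 + k.val := by omega
          rw [h1]
          apply decides_thenRight _ (by omega)
          refine decides_acP (c0 := c0) (e := e) (m := 0) hW hP hK (by omega)
            (tapeOK hA (by omega) (by omega) hbit0 (Or.inr ⟨by omega, fun _ => ?_⟩)
            (fun _ _ => by omega)) (by omega) (by omega)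
          congr 1
          omega
    · obtain ⟨j', rfl⟩ : ∃ j', j = j' + 1 := ⟨j - 1, by omega⟩
      have hz : (j' + 1) * bl s = j' * bl s + bl s := by ring
      have hpos : (j' + 1) * bl s = (j' * bl s + bl s - 1) + 1 := by omega
      obtain ⟨a, r, ha, hτ, -⟩ := hA.2 (j' * bl s + bl s - 1) (by omega)
      have hbits := fun x => bit_tape (hi := hi) hA (j := j') (by omega) (by omega) x
      refine (decides_ite (φ := False) (ψ := True) (χ := w ∈ M.language strict)
        (y := j' * bl s + bl s - 1) ?_ (fun h => absurd h (by simp))
        (fun _ => ?_)).congr (by tauto)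
      · rw [hpos]
        exact decides_lm_false hτ (by omega)
      · have h1 : j' * bl s + bl s - 1 = j' * bl s + 1 + (bl s - 2) := by omega
        rw [h1]
        apply decides_mvs_left (by omega)
        have h2 : (j' + 1) * bl s + k.val + 1 = j' * bl s + 1 + (bl s + k.val) := by omega
        rw [h2]
        refine decides_withC (c0 := c0) (w := w) (t := t) hW (by omega) (by omega) (fun c => ?_) ?_
        · have h2 := decides_ctP (c0 := c0) (e := e) (τ := τ) (hi := hi) (m := j' * bl s)
            (n' := bl s + k.val - 1) (c := c) (src := true) (w := w) hW hP hK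
            (tapeOK hA (by omega) (by omega) hbits (Or.inl (by omega)) (fun _ _ => rfl))
            (by omega) ?_ (by omega)
          · have h3 : j' * bl s + (bl s + k.val - 1) = t - 1 := by omega
            rw [h3] at h2
            exact h2
          · obtain ⟨a, r, h3, h4, _⟩ := hA.2 (j' * bl s + (bl s + k.val - 1)) (by omega)
            exact ⟨a, r, h3, h4⟩
        · apply decides_thenRight _ (by omega)
          refine decides_acP (c0 := c0) (e := e) (m := j' * bl s) hW hP hK (by omega)
            (tapeOK hA (by omega) (by omega) hbits (Or.inr ⟨by omega, fun _ => ?_⟩)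
            (fun _ _ => by omega)) (by omega) (by omega)
          congr 1
          omega
  rw [← hy] at hgoal
  exact hgoal

/-- The deterministic machine has the same language. -/
theorem plan_language (hW : WriteDet strict M)
    (hs : 1 ≤ s) (hP : P.DecidesConn) (hK : Nat.card (Vx M s) + 2 ≤ mm) :
    haveI : Finite (Bool × M.W) := by have := M.finW; infer_instance
    haveI : Inhabited (Bool × M.W) := ⟨(false, c0)⟩
    (plan strict M c0 e P hs).mach.language strict = M.language strict := by
  have hfin : Finite (Bool × M.W) := by have := M.finW; infer_instance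
  let _ : Inhabited (Bool × M.W) := ⟨(false, c0)⟩
  have hB := two_le_bl hs
  ext w
  refine Plan.mem_mach_language (P := plan strict M c0 e P hs) (an strict M c0 e w) w _ ?_ ?_ ?_
  · refine ⟨?_, fun h => absurd h (by simp)⟩
    refine (ini_iff strict M c0 w _).trans ?_
    constructor
    · intro h k hk
      have hk0 : k = ⟨0, by omega⟩ := Fin.ext (by rw [hk]; exact Nat.zero_mod _)
      rw [hk0, Nat.zero_div, Nat.zero_mul]
      exact h
    · intro h
      have h1 := h ⟨0, by omega⟩ (Nat.zero_mod _).symm
      rw [Nat.zero_div, Nat.zero_mul] at h1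
      exact h1
  · intro τ t ht1 htw hA
    obtain ⟨r, h1, h2, h3⟩ := run_main (c0 := c0) (e := e) hW hs hP hK (j := t / bl s)
      (k := (plan strict M c0 e P hs).ix t) hA ht1 htw (by
        show t = t / bl s * bl s + t % bl s
        rw [Nat.mul_comm, Nat.div_add_mod])
    refine ⟨r, h1, ?_, fun _ => h3⟩
    rw [h2]
    constructor
    · intro h k hk
      have : (plan strict M c0 e P hs).ix t = k := Fin.ext hk.symm
      rw [this] at h
      exact h
    · intro h
      exact h _ rfl
  · intro τ hA
    exact decides_fin (c0 := c0) (e := e) hW hs hP hK (j := w.length / bl s)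
      (k := (plan strict M c0 e P hs).ix w.length) hA rfl (by
        show w.length = w.length / bl s * bl s + w.length % bl s
        rw [Nat.mul_comm, Nat.div_add_mod]) (by omega)

end Pool.Agent.H644.LD
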